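import Pool.Agent.Helper54.EC1.Main3

/-!
Equations of the eigencompatibility variety of binary tensors, for every `d ≥ 3`.

The vectors `(a, b) ∈ ℂ²` are written in the isotropic coordinates `a ± i b` of the quadratic form
`a² + b²`. For a `d`-tuple `X = (X_1, ..., X_d)` of effective divisors of degree `d` on `ℙ¹`, with
homogeneous coordinates `y`, the polynomial `isoPoly y k` is the form of `X_k` in these coordinates.
-/

set_option autoImplicit false

namespace Pool.Agent.Results.MP_72974f_ag.BinaryEquations

open Pool.Agent.Helper834.EC Pool.Agent.Helper54.EC1

/-- For `d ≥ 3`, a tuple `X` lies in `EC_{1,d}` iff the ratios of the extreme coefficients of the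
`d` forms of `X` agree and, for even `d`, their middle coefficients satisfy two further equations.
Moreover `EC_{1,d}` is also the closure of the set of all the tuples of zero dimensional
eigenschemes with multiplicities. -/
theorem result (d : ℕ) (hd : 3 ≤ d) :
    (∀ y : Coord 1 d, toConf y ∈ eigencompatibilityVariety 1 d ↔ Eqs (isoPoly y)) ∧
    eigenConfs 1 d ⊆ schemeConfs d ∧
    closure (schemeConfs d) = eigencompatibilityVariety 1 d :=
  ⟨(main hd).2.2, (main hd).1, (main hd).2.1⟩

end Pool.Agent.Results.MP_72974f_ag.BinaryEquations
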